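import Pool.Agent.T9h21.DP.Spec

/-!
# Covering the cells of a piece by the cells between the ends of its pairs
-/

open Finset

set_option autoImplicit false

namespace Pool.Agent.T9h60.DP

open Pool.Agent.T9h21.DP Pool.Agent.T9h48.TSP

variable {m : ℕ}

lemma val_sub' (a b : Fin (m + 1)) :
    ((a - b : Fin (m + 1)) : ℕ) = if (b : ℕ) ≤ a then (a : ℕ) - b else m + 1 + a - b := by
  have ha := a.isLt
  have hb := b.isLt
  rw [Fin.val_sub]
  split_ifs with h
  · have h1 : m + 1 - (b : ℕ) + a = (m + 1) + (a - b) := by omega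
    rw [h1, Nat.add_mod_left, Nat.mod_eq_of_lt (by omega)]
  · rw [Nat.mod_eq_of_lt (by omega)]
    omega

lemma val_add' (a b : Fin (m + 1)) :
    ((a + b : Fin (m + 1)) : ℕ) =
      if (a : ℕ) + b < m + 1 then (a : ℕ) + b else (a : ℕ) + b - (m + 1) := by
  have ha := a.isLt
  have hb := b.isLt
  rw [Fin.val_add]
  split_ifs with h
  · exact Nat.mod_eq_of_lt h
  · rw [Nat.mod_eq_sub_mod (by omega), Nat.mod_eq_of_lt (by omega)]

/-- the cells which separate the ends of a pair -/
def sepc (X : Cfg m) (e : Pr m) : Finset (Fin (m + 1)) :=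
  univ.filter fun t => ¬ (X e.1 < t ↔ X e.2 < t)

lemma card_sepc (X : Cfg m) (e : Pr m) : (sepc X e).card ≤ gap X e := by
  have h : sepc X e ⊆ Finset.Ioc (X e.1) (X e.2) ∪ Finset.Ioc (X e.2) (X e.1) := by
    intro t ht
    simp only [sepc, mem_filter, mem_univ, true_and, mem_union, mem_Ioc] at ht ⊢
    by_cases h1 : X e.1 < t
    · by_cases h2 : X e.2 < t
      · exact absurd (iff_of_true h1 h2) ht
      · exact Or.inl ⟨h1, not_lt.mp h2⟩
    · by_cases h2 : X e.2 < t
      · exact Or.inr ⟨h2, not_lt.mp h1⟩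
      · exact absurd (iff_of_false h1 h2) ht
  refine (card_le_card h).trans ((card_union_le _ _).trans ?_)
  rw [Fin.card_Ioc, Fin.card_Ioc]
  unfold gap
  omega

open Classical in
/-- the cells which separate the ends of some pair of `y` -/
noncomputable def KK (X : Cfg m) (y : Multiset (Pr m)) : Finset (Fin (m + 1)) :=
  univ.filter fun t => ∃ e ∈ y, ¬ (X e.1 < t ↔ X e.2 < t)

lemma card_KK (X : Cfg m) (y : Multiset (Pr m)) : (KK X y).card ≤ S y (gap X) := by
  classical
  induction y using Multiset.induction with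
  | empty => simp [KK]
  | cons a y ih =>
    have h : KK X (a ::ₘ y) ⊆ sepc X a ∪ KK X y := by
      intro t ht
      simp only [KK, sepc, mem_filter, mem_univ, true_and, mem_union, Multiset.mem_cons] at ht ⊢
      obtain ⟨e, he, h⟩ := ht
      rcases he with rfl | he
      · exact Or.inl h
      · exact Or.inr ⟨e, he, h⟩
    have h2 : S (a ::ₘ y) (gap X) = gap X a + S y (gap X) := by simp [S]
    rw [h2]
    exact (card_le_card h).trans ((card_union_le _ _).trans (Nat.add_le_add (card_sepc X a) ih))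

/-- the number `s` as a cell -/
def sh (s : ℕ) (hs : s ≤ m) : Fin (m + 1) := ⟨s, Nat.lt_succ_of_le hs⟩

lemma arc_sep (l a b : Fin (m + 1)) (s : ℕ) (hs : s ≤ m)
    (ha : ((a - l : Fin (m + 1)) : ℕ) < s) (hb : ¬ ((b - l : Fin (m + 1)) : ℕ) < s) :
    ¬ (a < l ↔ b < l) ∨ ¬ (a < l + sh s hs ↔ b < l + sh s hs) := by
  have h1 := a.isLt
  have h2 := b.isLt
  have h3 := l.isLt
  have h4 : ((sh s hs : Fin (m + 1)) : ℕ) = s := rfl
  simp only [Fin.lt_def, val_add', val_sub', h4] at *
  split_ifs at * <;> omega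

lemma arcL_eq (l : Fin (m + 1)) (s : ℕ) (h1 : 1 ≤ s) (hs : s ≤ m) :
    arcL l s = arcR (l + sh s hs) s := by
  ext t
  simp only [arcL, arcR, mem_filter, mem_univ, true_and]
  have h3 := t.isLt
  have h2 := l.isLt
  have h4 : ((sh s hs : Fin (m + 1)) : ℕ) = s := rfl
  have h5 : ((1 : Fin (m + 1)) : ℕ) = 1 := by
    rw [Fin.val_one']
    exact Nat.mod_eq_of_lt (by omega)
  simp only [val_sub', val_add', h4, h5]
  split_ifs <;> omega

lemma ind_nonneg (D : Finset (Cut m)) (X : Cfg m) (I : Finset (Fin (m + 1))) : 0 ≤ ind D X I := by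
  unfold ind
  split_ifs <;> norm_num

lemma ind_cover {D : Finset (Cut m)} {X : Cfg m} {y : Multiset (Pr m)} (hD : ∀ χ ∈ D, Hits y χ)
    (l : Fin (m + 1)) (s : ℕ) (h1 : 1 ≤ s) (hs : s ≤ m) :
    ind D X (arcL l s) ≤ (if l ∈ KK X y then ind D X (arcL l s) else 0) +
      (if l + sh s hs ∈ KK X y then ind D X (arcR (l + sh s hs) s) else 0) := by
  classical
  rw [← arcL_eq l s h1 hs]
  by_cases hc : con X (arcL l s) ∈ D
  · obtain ⟨e, he, hne⟩ := hD _ hc
    have hor : l ∈ KK X y ∨ l + sh s hs ∈ KK X y := by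
      have key : ¬ (X e.1 < l ↔ X e.2 < l) ∨
          ¬ (X e.1 < l + sh s hs ↔ X e.2 < l + sh s hs) := by
        simp only [con, arcL, mem_filter, mem_univ, true_and] at hne
        by_cases h3 : ((X e.1 - l : Fin (m + 1)) : ℕ) < s
        · by_cases h4 : ((X e.2 - l : Fin (m + 1)) : ℕ) < s
          · simp [h3, h4] at hne
          · exact arc_sep l _ _ s hs h3 h4
        · by_cases h4 : ((X e.2 - l : Fin (m + 1)) : ℕ) < s
          · rcases arc_sep l _ _ s hs h4 h3 with h | h
            · exact Or.inl fun h' => h h'.symm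
            · exact Or.inr fun h' => h h'.symm
          · simp [h3, h4] at hne
      rcases key with h | h
      · exact Or.inl (by simp only [KK, mem_filter, mem_univ, true_and]; exact ⟨e, he, h⟩)
      · exact Or.inr (by simp only [KK, mem_filter, mem_univ, true_and]; exact ⟨e, he, h⟩)
    have h0 := ind_nonneg D X (arcL l s)
    rcases hor with h | h
    · rw [if_pos h]
      have : 0 ≤ (if l + sh s hs ∈ KK X y then ind D X (arcL l s) else 0) := by
        split_ifs <;> simp [h0]
      linarith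
    · rw [if_pos h]
      have : 0 ≤ (if l ∈ KK X y then ind D X (arcL l s) else 0) := by
        split_ifs <;> simp [h0]
      linarith
  · have h0 : ind D X (arcL l s) = 0 := by
      unfold ind
      rw [if_neg hc]
    rw [h0]
    simp

/-- the cover lemma -/
theorem cov (m : ℕ) : S_cov m := by
  classical
  intro L R D X y hR hRL hD
  have hs1 : ∀ i ∈ range L, 1 ≤ R ^ (i + 1) := fun i _ => Nat.one_le_pow _ _ hR
  have hs2 : ∀ i ∈ range L, R ^ (i + 1) ≤ m := fun i hi =>
    (Nat.pow_le_pow_right hR (mem_range.mp hi)).trans hRL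
  set K := KK X y with hK
  have hA : ∑ l, Nl L R D X l ≤ (∑ l, if l ∈ K then Nl L R D X l else 0) +
      ∑ r, if r ∈ K then Nr L R D X r else 0 := by
    have e1 : ∑ l, Nl L R D X l = ∑ i ∈ range L, ∑ l, ind D X (arcL l (R ^ (i + 1))) := by
      simp only [Nl]
      exact sum_comm
    have e2 : (∑ l, if l ∈ K then Nl L R D X l else 0) =
        ∑ i ∈ range L, ∑ l, if l ∈ K then ind D X (arcL l (R ^ (i + 1))) else 0 := by
      rw [sum_comm]
      refine sum_congr rfl fun l _ => ?_
      split_ifs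
      · rfl
      · simp
    have e3 : (∑ r, if r ∈ K then Nr L R D X r else 0) =
        ∑ i ∈ range L, ∑ r, if r ∈ K then ind D X (arcR r (R ^ (i + 1))) else 0 := by
      rw [sum_comm]
      refine sum_congr rfl fun l _ => ?_
      split_ifs
      · rfl
      · simp
    rw [e1, e2, e3, ← sum_add_distrib]
    refine sum_le_sum fun i hi => ?_
    have e4 : (∑ r, if r ∈ K then ind D X (arcR r (R ^ (i + 1))) else 0) =
        ∑ l, if l + sh (R ^ (i + 1)) (hs2 i hi) ∈ K then
          ind D X (arcR (l + sh (R ^ (i + 1)) (hs2 i hi)) (R ^ (i + 1))) else 0 :=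
      (Equiv.sum_comp (Equiv.addRight (sh (R ^ (i + 1)) (hs2 i hi)))
        (fun r => if r ∈ K then ind D X (arcR r (R ^ (i + 1))) else 0)).symm
    rw [e4, ← sum_add_distrib]
    exact sum_le_sum fun l _ => ind_cover hD l _ (hs1 i hi) (hs2 i hi)
  have quad : ∀ (f : Fin (m + 1) → ℝ), (∑ l, if l ∈ K then f l else 0) ≤
      7 * (K.card : ℝ) + (1 / 28) * ∑ l, f l ^ 2 := by
    intro f
    have h1 : ∀ l, (if l ∈ K then f l else 0) ≤ (if l ∈ K then (7 : ℝ) else 0) + (1 / 28) * f l ^ 2 := by
      intro l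
      split_ifs
      · nlinarith [sq_nonneg (f l - 14)]
      · nlinarith [sq_nonneg (f l)]
    calc (∑ l, if l ∈ K then f l else 0) ≤ ∑ l, ((if l ∈ K then (7 : ℝ) else 0) + (1 / 28) * f l ^ 2) :=
          sum_le_sum fun l _ => h1 l
      _ = 7 * (K.card : ℝ) + (1 / 28) * ∑ l, f l ^ 2 := by
          rw [sum_add_distrib, ← mul_sum, ← sum_filter, sum_const, nsmul_eq_mul]
          have : univ.filter (fun l => l ∈ K) = K := by ext; simp
          rw [this]
          ring
  have hN1 := quad (Nl L R D X)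
  have hN2 := quad (Nr L R D X)
  have hcard : (K.card : ℝ) ≤ (S y (gap X) : ℝ) := by exact_mod_cast card_KK X y
  unfold G
  rw [sum_add_distrib]
  linarith

end Pool.Agent.T9h60.DP
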