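import Pool.Agent.T9h21.DP.Spec

/-!
# Basic facts on the potential
-/

open Finset

set_option autoImplicit false

namespace Pool.Agent.T9h60.DP

open Pool.Agent.T9h21.DP Pool.Agent.T9h48.TSP

variable {m : ℕ}

lemma ind_sum (D : Finset (Cut m)) (X : Cfg m) (I : Finset (Fin (m + 1))) :
    ∑ χ ∈ D, ind {χ} X I = ind D X I := by
  classical
  unfold ind
  simp only [mem_singleton]
  rw [Finset.sum_ite_eq]

lemma avg_sum {ι : Type} (s : Finset ι) (F : ι → Cfg m → ℝ) :
    avg (fun X => ∑ i ∈ s, F i X) = ∑ i ∈ s, avg (F i) := by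
  unfold avg
  rw [sum_comm, ← sum_div]

lemma avg_mono {F F' : Cfg m → ℝ} (h : ∀ X, F X ≤ F' X) : avg F ≤ avg F' := by
  unfold avg
  exact div_le_div_of_nonneg_right (sum_le_sum fun X _ => h X) (by positivity)

lemma avg_add (F F' : Cfg m → ℝ) : avg (fun X => F X + F' X) = avg F + avg F' := by
  unfold avg
  rw [sum_add_distrib, add_div]

lemma avg_sub (F F' : Cfg m → ℝ) : avg (fun X => F X - F' X) = avg F - avg F' := by
  unfold avg
  rw [sum_sub_distrib, sub_div]

lemma avg_prod (f : Fin (m + 1) → Fin (m + 1) → ℝ) :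
    avg (fun X => ∏ w, f w (X w)) = ∏ w, ((∑ a, f w a) / ((m : ℝ) + 1)) := by
  unfold avg
  have h : ∑ X : Cfg m, ∏ w, f w (X w) = ∏ w, ∑ a, f w a := by
    have h1 := Finset.prod_univ_sum (fun _ : Fin (m + 1) => (univ : Finset (Fin (m + 1)))) f
    rw [Fintype.piFinset_univ] at h1
    exact h1.symm
  rw [h, prod_div_distrib, prod_const, card_univ, Fintype.card_fin]

lemma avg_one : avg (fun _ : Cfg m => (1 : ℝ)) = 1 := by
  have h := avg_prod (m := m) (fun _ _ => 1)
  simp only [prod_const_one, sum_const, card_univ, Fintype.card_fin, nsmul_eq_mul, mul_one] at h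
  rw [h]
  have : ((m + 1 : ℕ) : ℝ) / ((m : ℝ) + 1) = 1 := by
    push_cast
    exact div_self (by positivity)
  rw [this]
  simp

lemma sum_ind (I : Finset (Fin (m + 1))) :
    ∑ a : Fin (m + 1), (if a ∈ I then (1 : ℝ) else 0) = I.card := by
  rw [← sum_filter, sum_const, nsmul_eq_mul, mul_one]
  congr 2
  ext
  simp

/-- one vertex -/
lemma avg_mem (v : Fin (m + 1)) (I : Finset (Fin (m + 1))) :
    avg (fun X : Cfg m => if X v ∈ I then (1 : ℝ) else 0) = I.card / ((m : ℝ) + 1) := by
  have h := avg_prod (m := m) (fun w a => if w = v then (if a ∈ I then (1 : ℝ) else 0) else 1)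
  have h1 : (fun X : Cfg m => ∏ w, (fun w a => if w = v then (if a ∈ I then (1 : ℝ) else 0) else 1)
      w (X w)) = fun X : Cfg m => if X v ∈ I then (1 : ℝ) else 0 := by
    funext X
    simp only
    rw [Finset.prod_ite_eq' univ v (fun w => if X w ∈ I then (1 : ℝ) else 0)]
    simp
  rw [h1] at h
  rw [h]
  have h2 : ∀ w : Fin (m + 1),
      (∑ a, (fun w a => if w = v then (if a ∈ I then (1 : ℝ) else 0) else 1) w a) / ((m : ℝ) + 1) =
        if w = v then (I.card : ℝ) / ((m : ℝ) + 1) else 1 := by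
    intro w
    by_cases hw : w = v
    · simp only [hw, if_true]
      rw [sum_ind]
    · simp only [hw, if_false, sum_const, card_univ, Fintype.card_fin, nsmul_eq_mul, mul_one]
      push_cast
      exact div_self (by positivity)
  rw [prod_congr rfl fun w _ => h2 w, Finset.prod_ite_eq' univ v]
  simp

/-- all vertices -/
lemma avg_all (I : Finset (Fin (m + 1))) :
    avg (fun X : Cfg m => if ∀ v, X v ∈ I then (1 : ℝ) else 0) =
      ((I.card : ℝ) / ((m : ℝ) + 1)) ^ (m + 1) := by
  have h := avg_prod (m := m) (fun _ a => if a ∈ I then (1 : ℝ) else 0)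
  have h1 : (fun X : Cfg m => ∏ w, (fun (_ : Fin (m + 1)) a => if a ∈ I then (1 : ℝ) else 0)
      w (X w)) = fun X : Cfg m => if ∀ v, X v ∈ I then (1 : ℝ) else 0 := by
    funext X
    simp only
    rw [Finset.prod_ite_zero]
    simp
  rw [h1] at h
  rw [h]
  simp only [sum_ind, prod_const, card_univ, Fintype.card_fin]

lemma card_arc (s : ℕ) (hs : s ≤ m + 1) : (arcL (0 : Fin (m + 1)) s).card = s := by
  have h : arcL (0 : Fin (m + 1)) s = univ.filter fun t : Fin (m + 1) => (t : ℕ) < s := by
    unfold arcL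
    simp
  rw [h, ← Finset.card_map Fin.valEmbedding]
  have h2 : (univ.filter fun t : Fin (m + 1) => (t : ℕ) < s).map Fin.valEmbedding = range s := by
    ext a
    simp only [mem_map, mem_filter, mem_univ, true_and, Fin.valEmbedding_apply, mem_range]
    constructor
    · rintro ⟨t, ht, rfl⟩
      exact ht
    · intro ha
      exact ⟨⟨a, by omega⟩, ha, rfl⟩
  rw [h2, card_range]

/-- basic facts on the potential -/
theorem phi (m : ℕ) : S_phi m := by
  classical
  refine ⟨fun L R D => ?_, fun L R hL hR hn => ?_⟩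
  · unfold Phi
    rw [sum_comm]
    refine sum_congr rfl fun i _ => ?_
    rw [← avg_sum]
    simp only [ind_sum]
  · have hLR : L ≤ L ^ 4 := Nat.le_self_pow (by norm_num) L
    have hR1 : 1 ≤ R := by omega
    have hP1 : 1 ≤ R ^ L := Nat.one_le_pow _ _ hR1
    have hPP : R ^ L ≤ (R ^ L) ^ 2 := Nat.le_self_pow (by norm_num) _
    have h4 : 4 * (L * R ^ L) ≤ m + 1 := by
      calc 4 * (L * R ^ L) ≤ 4 * (L ^ 4 * (R ^ L) ^ 2) :=
            Nat.mul_le_mul_left _ (Nat.mul_le_mul hLR hPP)
        _ = 4 * L ^ 4 * (R ^ L) ^ 2 := by ring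
        _ ≤ m + 1 := hn
    have hLpos : (0 : ℝ) < L := by exact_mod_cast hL
    have hn0 : (0 : ℝ) < (m : ℝ) + 1 := by positivity
    have h4' : 4 * ((L : ℝ) * ((R ^ L : ℕ) : ℝ)) ≤ (m : ℝ) + 1 := by exact_mod_cast h4
    have hs : ∀ i ∈ range L, R ^ (i + 1) ≤ R ^ L := fun i hi =>
      Nat.pow_le_pow_right hR1 (mem_range.mp hi)
    have hLs : ∀ i ∈ range L, 2 * L ≤ R ^ (i + 1) := fun i _ => by
      calc 2 * L ≤ 2 * L ^ 4 := Nat.mul_le_mul_left _ hLR
        _ ≤ R := hR
        _ ≤ R ^ (i + 1) := Nat.le_self_pow (by omega) R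
    have hsn : ∀ i ∈ range L, R ^ (i + 1) ≤ m + 1 := fun i hi => by
      have h1 := hs i hi
      have h2 : R ^ L ≤ L * R ^ L := Nat.le_mul_of_pos_left _ hL
      omega
    constructor
    · intro e
      have h1 : ∀ i ∈ range L, avg (fun X : Cfg m =>
          ind (univ.filter (fun χ : Cut m => χ e.1 ≠ χ e.2)) X (arcL 0 (R ^ (i + 1)))) ≤
          2 * ((R ^ L : ℕ) : ℝ) / ((m : ℝ) + 1) := by
        intro i hi
        have h2 : avg (fun X : Cfg m =>
            ind (univ.filter (fun χ : Cut m => χ e.1 ≠ χ e.2)) X (arcL 0 (R ^ (i + 1)))) ≤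
            avg (fun X : Cfg m => (if X e.1 ∈ arcL 0 (R ^ (i + 1)) then (1 : ℝ) else 0) +
              if X e.2 ∈ arcL 0 (R ^ (i + 1)) then (1 : ℝ) else 0) := by
          refine avg_mono fun X => ?_
          unfold ind
          simp only [mem_filter, mem_univ, true_and, con]
          by_cases ha : X e.1 ∈ arcL 0 (R ^ (i + 1)) <;>
            by_cases hb : X e.2 ∈ arcL 0 (R ^ (i + 1)) <;> simp [ha, hb]
        refine h2.trans ?_
        rw [avg_add, avg_mem, avg_mem, card_arc _ (hsn i hi), ← add_div]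
        apply div_le_div_of_nonneg_right _ hn0.le
        have h3 : ((R ^ (i + 1) : ℕ) : ℝ) ≤ ((R ^ L : ℕ) : ℝ) := by exact_mod_cast hs i hi
        linarith
      unfold Phi
      calc _ ≤ ∑ _i ∈ range L, 2 * ((R ^ L : ℕ) : ℝ) / ((m : ℝ) + 1) := sum_le_sum h1
        _ = 2 * (L * ((R ^ L : ℕ) : ℝ)) / ((m : ℝ) + 1) := by
            rw [sum_const, card_range, nsmul_eq_mul]
            ring
        _ < 1 := by
            rw [div_lt_one hn0]
            have h5 : (0 : ℝ) < L * ((R ^ L : ℕ) : ℝ) := by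
              have : (0 : ℝ) < ((R ^ L : ℕ) : ℝ) := by exact_mod_cast hP1
              positivity
            linarith
    · have h1 : ∀ i ∈ range L, 1 - 1 / (L : ℝ) ≤ avg (fun X : Cfg m =>
          ind (univ.filter (fun χ : Cut m => (∃ u, χ u = true) ∧ ∃ u, χ u = false)) X
            (arcL 0 (R ^ (i + 1)))) := by
        intro i hi
        set I := arcL (0 : Fin (m + 1)) (R ^ (i + 1)) with hI
        have hIc : (I.card : ℝ) = ((R ^ (i + 1) : ℕ) : ℝ) := by
          rw [hI, card_arc _ (hsn i hi)]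
        have h2 : avg (fun X : Cfg m => (1 - (if ∀ v, X v ∈ I then (1 : ℝ) else 0)) -
            (if ∀ v, X v ∈ Iᶜ then (1 : ℝ) else 0)) ≤ avg (fun X : Cfg m =>
            ind (univ.filter (fun χ : Cut m => (∃ u, χ u = true) ∧ ∃ u, χ u = false)) X I) := by
          refine avg_mono fun X => ?_
          unfold ind
          simp only [mem_filter, mem_univ, true_and, con, decide_eq_true_eq, decide_eq_false_iff_not,
            mem_compl]
          by_cases ha : ∀ v, X v ∈ I
          · rw [if_pos ha]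
            split_ifs <;> norm_num
          · by_cases hb : ∀ v, X v ∉ I
            · rw [if_pos hb]
              split_ifs <;> norm_num
            · rw [if_neg ha, if_neg hb, if_pos]
              · norm_num
              · push Not at ha hb
                exact ⟨hb, ha⟩
        refine le_trans ?_ h2
        rw [avg_sub, avg_sub, avg_one, avg_all, avg_all, hIc]
        have hcc : ((Iᶜ.card : ℕ) : ℝ) = (m : ℝ) + 1 - ((R ^ (i + 1) : ℕ) : ℝ) := by
          rw [card_compl, Fintype.card_fin, hI, card_arc _ (hsn i hi), Nat.cast_sub (hsn i hi)]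
          push_cast
          ring
        rw [hcc]
        set s : ℝ := ((R ^ (i + 1) : ℕ) : ℝ) with hsdef
        have hs1 : 2 * (L : ℝ) ≤ s := by rw [hsdef]; exact_mod_cast hLs i hi
        have hs2 : s ≤ ((R ^ L : ℕ) : ℝ) := by rw [hsdef]; exact_mod_cast hs i hi
        have hs3 : s ≤ (m : ℝ) + 1 := by rw [hsdef]; exact_mod_cast hsn i hi
        have hs0 : 0 ≤ s := by positivity
        have b1 : (s / ((m : ℝ) + 1)) ^ (m + 1) ≤ 1 / (2 * L) := by
          refine (pow_le_of_le_one (by positivity) ((div_le_one hn0).mpr hs3) (by omega)).trans ?_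
          rw [div_le_div_iff₀ hn0 (by positivity)]
          nlinarith
        have b2 : (((m : ℝ) + 1 - s) / ((m : ℝ) + 1)) ^ (m + 1) ≤ 1 / (2 * L) := by
          have e1 : ((m : ℝ) + 1 - s) / ((m : ℝ) + 1) = 1 - s / ((m + 1 : ℕ) : ℝ) := by
            push_cast
            field_simp
          rw [e1]
          refine (Real.one_sub_div_pow_le_exp_neg (by push_cast; exact hs3)).trans ?_
          rw [Real.exp_neg, inv_eq_one_div]
          apply one_div_le_one_div_of_le (by positivity)
          have := Real.add_one_le_exp s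
          linarith
        have e3 : 1 / (L : ℝ) = 1 / (2 * L) + 1 / (2 * L) := by
          field_simp
          norm_num
        rw [e3]
        linarith
      unfold Phi
      calc (L : ℝ) - 1 = ∑ _i ∈ range L, (1 - 1 / (L : ℝ)) := by
            rw [sum_const, card_range, nsmul_eq_mul]
            field_simp
        _ ≤ _ := sum_le_sum h1

end Pool.Agent.T9h60.DP
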