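import Pool.Agent.T9h21.DP.Spec2
import Pool.Agent.T9h60.DP.Phi

/-!
# Basic facts on the potential, scales `R, R ^ 2, …` with `R ≥ 4`
-/

open Finset

set_option autoImplicit false

namespace Pool.Agent.T9h60.DP

open Pool.Agent.T9h21.DP Pool.Agent.T9h48.TSP

variable {m : ℕ}

lemma geom_quarter (L : ℕ) : ∑ i ∈ range L, ((1 : ℝ) / 4) ^ (i + 1) = (1 - (1 / 4) ^ L) / 3 := by
  induction L with
  | zero => simp
  | succ L ih =>
    rw [sum_range_succ, ih]
    ring

/-- basic facts on the potential -/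
theorem phi2 (m : ℕ) : S_phi2 m := by
  classical
  refine ⟨(phi m).1, fun L R hL hR hn => ?_⟩
  have hLR : L ≤ L ^ 4 := Nat.le_self_pow (by norm_num) L
  have hR1 : 1 ≤ R := by omega
  have hP1 : 1 ≤ R ^ L := Nat.one_le_pow _ _ hR1
  have hPP : R ^ L ≤ (R ^ L) ^ 2 := Nat.le_self_pow (by norm_num) _
  have h4 : 4 * (L * R ^ L) ≤ m + 1 := by
    calc 4 * (L * R ^ L) ≤ 4 * (L ^ 4 * (R ^ L) ^ 2) :=
          Nat.mul_le_mul_left _ (Nat.mul_le_mul hLR hPP)
      _ = 4 * L ^ 4 * (R ^ L) ^ 2 := by ring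
      _ ≤ m + 1 := hn
  have hLpos : (0 : ℝ) < L := by exact_mod_cast hL
  have hn0 : (0 : ℝ) < (m : ℝ) + 1 := by positivity
  have h4' : 4 * ((L : ℝ) * ((R ^ L : ℕ) : ℝ)) ≤ (m : ℝ) + 1 := by exact_mod_cast h4
  have hs : ∀ i ∈ range L, R ^ (i + 1) ≤ R ^ L := fun i hi =>
    Nat.pow_le_pow_right hR1 (mem_range.mp hi)
  have hsn : ∀ i ∈ range L, R ^ (i + 1) ≤ m + 1 := fun i hi => by
    have h1 := hs i hi
    have h2 : R ^ L ≤ L * R ^ L := Nat.le_mul_of_pos_left _ hL
    omega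
  constructor
  · intro e
    have h1 : ∀ i ∈ range L, avg (fun X : Cfg m =>
        ind (univ.filter (fun χ : Cut m => χ e.1 ≠ χ e.2)) X (arcL 0 (R ^ (i + 1)))) ≤
        2 * ((R ^ L : ℕ) : ℝ) / ((m : ℝ) + 1) := by
      intro i hi
      have h2 : avg (fun X : Cfg m =>
          ind (univ.filter (fun χ : Cut m => χ e.1 ≠ χ e.2)) X (arcL 0 (R ^ (i + 1)))) ≤
          avg (fun X : Cfg m => (if X e.1 ∈ arcL 0 (R ^ (i + 1)) then (1 : ℝ) else 0) +
            if X e.2 ∈ arcL 0 (R ^ (i + 1)) then (1 : ℝ) else 0) := by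
        refine avg_mono fun X => ?_
        unfold ind
        simp only [mem_filter, mem_univ, true_and, con]
        by_cases ha : X e.1 ∈ arcL 0 (R ^ (i + 1)) <;>
          by_cases hb : X e.2 ∈ arcL 0 (R ^ (i + 1)) <;> simp [ha, hb]
      refine h2.trans ?_
      rw [avg_add, avg_mem, avg_mem, card_arc _ (hsn i hi), ← add_div]
      apply div_le_div_of_nonneg_right _ hn0.le
      have h3 : ((R ^ (i + 1) : ℕ) : ℝ) ≤ ((R ^ L : ℕ) : ℝ) := by exact_mod_cast hs i hi
      linarith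
    unfold Phi
    calc _ ≤ ∑ _i ∈ range L, 2 * ((R ^ L : ℕ) : ℝ) / ((m : ℝ) + 1) := sum_le_sum h1
      _ = 2 * (L * ((R ^ L : ℕ) : ℝ)) / ((m : ℝ) + 1) := by
          rw [sum_const, card_range, nsmul_eq_mul]
          ring
      _ < 1 := by
          rw [div_lt_one hn0]
          have h5 : (0 : ℝ) < L * ((R ^ L : ℕ) : ℝ) := by
            have : (0 : ℝ) < ((R ^ L : ℕ) : ℝ) := by exact_mod_cast hP1
            positivity
          linarith
  · have h1 : ∀ i ∈ range L, 1 - (1 / 4 : ℝ) ^ (i + 1) - ((R ^ L : ℕ) : ℝ) / ((m : ℝ) + 1) ≤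
        avg (fun X : Cfg m =>
        ind (univ.filter (fun χ : Cut m => (∃ u, χ u = true) ∧ ∃ u, χ u = false)) X
          (arcL 0 (R ^ (i + 1)))) := by
      intro i hi
      set I := arcL (0 : Fin (m + 1)) (R ^ (i + 1)) with hI
      have hIc : (I.card : ℝ) = ((R ^ (i + 1) : ℕ) : ℝ) := by
        rw [hI, card_arc _ (hsn i hi)]
      have h2 : avg (fun X : Cfg m => (1 - (if ∀ v, X v ∈ I then (1 : ℝ) else 0)) -
          (if ∀ v, X v ∈ Iᶜ then (1 : ℝ) else 0)) ≤ avg (fun X : Cfg m =>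
          ind (univ.filter (fun χ : Cut m => (∃ u, χ u = true) ∧ ∃ u, χ u = false)) X I) := by
        refine avg_mono fun X => ?_
        unfold ind
        simp only [mem_filter, mem_univ, true_and, con, decide_eq_true_eq, decide_eq_false_iff_not,
          mem_compl]
        by_cases ha : ∀ v, X v ∈ I
        · rw [if_pos ha]
          split_ifs <;> norm_num
        · by_cases hb : ∀ v, X v ∉ I
          · rw [if_pos hb]
            split_ifs <;> norm_num
          · rw [if_neg ha, if_neg hb, if_pos]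
            · norm_num
            · push Not at ha hb
              exact ⟨hb, ha⟩
      refine le_trans ?_ h2
      rw [avg_sub, avg_sub, avg_one, avg_all, avg_all, hIc]
      have hcc : ((Iᶜ.card : ℕ) : ℝ) = (m : ℝ) + 1 - ((R ^ (i + 1) : ℕ) : ℝ) := by
        rw [card_compl, Fintype.card_fin, hI, card_arc _ (hsn i hi), Nat.cast_sub (hsn i hi)]
        push_cast
        ring
      rw [hcc]
      set s : ℝ := ((R ^ (i + 1) : ℕ) : ℝ) with hsdef
      have hs1 : (4 : ℝ) ^ (i + 1) ≤ s := by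
        rw [hsdef]
        exact_mod_cast Nat.pow_le_pow_left hR (i + 1)
      have hs2 : s ≤ ((R ^ L : ℕ) : ℝ) := by rw [hsdef]; exact_mod_cast hs i hi
      have hs3 : s ≤ (m : ℝ) + 1 := by rw [hsdef]; exact_mod_cast hsn i hi
      have hs0 : 0 ≤ s := by positivity
      have b1 : (s / ((m : ℝ) + 1)) ^ (m + 1) ≤ ((R ^ L : ℕ) : ℝ) / ((m : ℝ) + 1) := by
        refine (pow_le_of_le_one (by positivity) ((div_le_one hn0).mpr hs3) (by omega)).trans ?_
        exact div_le_div_of_nonneg_right hs2 hn0.le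
      have b2 : (((m : ℝ) + 1 - s) / ((m : ℝ) + 1)) ^ (m + 1) ≤ (1 / 4 : ℝ) ^ (i + 1) := by
        have e1 : ((m : ℝ) + 1 - s) / ((m : ℝ) + 1) = 1 - s / ((m + 1 : ℕ) : ℝ) := by
          push_cast
          field_simp
        rw [e1]
        refine (Real.one_sub_div_pow_le_exp_neg (by push_cast; exact hs3)).trans ?_
        rw [Real.exp_neg, inv_eq_one_div, one_div_pow]
        apply one_div_le_one_div_of_le (by positivity)
        have := Real.add_one_le_exp s
        linarith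
      linarith
    unfold Phi
    have h5 : ∑ i ∈ range L, (1 - (1 / 4 : ℝ) ^ (i + 1) - ((R ^ L : ℕ) : ℝ) / ((m : ℝ) + 1)) =
        L - (1 - (1 / 4) ^ L) / 3 - L * ((R ^ L : ℕ) : ℝ) / ((m : ℝ) + 1) := by
      rw [sum_sub_distrib, sum_sub_distrib, geom_quarter, sum_const, sum_const, card_range,
        nsmul_eq_mul, nsmul_eq_mul]
      ring
    have h6 : (L : ℝ) * ((R ^ L : ℕ) : ℝ) / ((m : ℝ) + 1) ≤ 1 / 4 := by
      rw [div_le_div_iff₀ hn0 (by norm_num)]
      linarith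
    have h7 : (0 : ℝ) ≤ (1 / 4 : ℝ) ^ L := by positivity
    calc (L : ℝ) - 1 ≤ L - (1 - (1 / 4) ^ L) / 3 - L * ((R ^ L : ℕ) : ℝ) / ((m : ℝ) + 1) := by
          linarith
      _ ≤ _ := by
          rw [← h5]
          exact sum_le_sum h1

end Pool.Agent.T9h60.DP
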